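import Pool.Agent.H.MP_6b630c_al.A

set_option autoImplicit false

namespace Pool.Agent.Results.MP_6b630c_al.Chain
open Pool.Agent.H.MP_6b630c_al

theorem result : ∃ C : Set (Set ZwrZ), ¬ C.Countable ∧ (∀ X ∈ C, QP X) ∧
    (∀ X ∈ C, ∀ Y ∈ C, Le X Y ∨ Le Y X) ∧
    (∀ X ∈ C, ∀ Y ∈ C, Le X Y → Le Y X → X = Y) := by
  have key : ∀ r, 2 ≤ r → ∀ s, 2 ≤ s → Le (XX r) (XX s) → Le (XX s) (XX r) → r = s := by
    intro r hr s hs a b
    rcases lt_trichotomy r s with h | h | h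
    · exact absurd a (not_le_of hr h)
    · exact h
    · exact absurd b (not_le_of hs h)
  refine ⟨XX '' Set.Ici 2, fun h => ?_, ?_, ?_, ?_⟩
  · have h2 : (Set.Ici (2 : ℝ)).Countable := Set.countable_of_injective_of_countable_image
      (fun r hr s hs e => key r hr s hs (by rw [e]; exact le_of hs le_rfl)
        (by rw [e]; exact le_of hs le_rfl)) h
    have h3 := Cardinal.mk_Ici_real 2
    have h4 := Cardinal.le_aleph0_iff_set_countable.mpr h2
    rw [h3] at h4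
    exact absurd h4 (not_le.mpr Cardinal.aleph0_lt_continuum)
  · rintro _ ⟨r, hr, rfl⟩
    exact qp hr
  · rintro _ ⟨r, hr, rfl⟩ _ ⟨s, hs, rfl⟩
    rcases le_total r s with h | h
    · exact Or.inr (le_of hr h)
    · exact Or.inl (le_of hs h)
  · rintro _ ⟨r, hr, rfl⟩ _ ⟨s, hs, rfl⟩ a b
    rw [key r hr s hs a b]

end Pool.Agent.Results.MP_6b630c_al.Chain
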